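import Pool.Agent.K1H70.KQ.Stm

/-! The linear algebra step for determinants of paths in framed quivers (helper24, for helper70,
project KQ); generalises `Pool.Agent.K1H67.KG.Det` (helper67). -/

set_option autoImplicit false

namespace Pool.Agent.K1H24.KQ.Det

open Finset Pool.Agent.K1H70.KQ

section

variable {R : Type} [CommRing R] {α E : Type} [Fintype E] [DecidableEq E]

/-- the rest of a vector -/
def tl (e0 : E) (v : E → R) : En e0 → R := fun a => v a.1

/-- a word applied to a vector -/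
def wf {k : Type} [Fintype k] (A : α → Matrix k k R) (w : List α) (y : k → R) : k → R :=
  w.foldr (fun b y => (A b).mulVec y) y

/-- the rest of a matrix -/
def sb (e0 : E) (A : Matrix E E R) : Matrix (En e0) (En e0) R :=
  A.submatrix Subtype.val Subtype.val

theorem tl_mulVec (e0 : E) (A : Matrix E E R) (y : E → R) :
    tl e0 (A.mulVec y) = (sb e0 A).mulVec (tl e0 y) + y e0 • (fun a : En e0 => A a.1 e0) := by
  funext a
  simp only [tl, sb, Matrix.mulVec, dotProduct, Pi.add_apply, Pi.smul_apply, smul_eq_mul,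
    Matrix.submatrix_apply]
  rw [Fintype.sum_eq_add_sum_subtype_ne _ e0]
  ring

theorem tl_wf (e0 : E) (A : α → Matrix E E R) (w : List α) (y : E → R) :
    tl e0 (wf A w y) = wf (fun b => sb e0 (A b)) w (tl e0 y) +
      ∑ i : Fin w.length, (wf A (w.drop (i + 1)) y) e0 •
        wf (fun b => sb e0 (A b)) (w.take i) (fun a : En e0 => A w[i] a.1 e0) := by
  induction w with
  | nil => simp [wf]
  | cons b w ih =>
    have h1 : wf A (b :: w) y = (A b).mulVec (wf A w y) := rfl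
    rw [h1, tl_mulVec, ih, Matrix.mulVec_add, Matrix.mulVec_sum]
    have h2 : (∑ i : Fin (b :: w).length, (wf A ((b :: w).drop (i + 1)) y) e0 •
        wf (fun b => sb e0 (A b)) ((b :: w).take i)
          (fun a : En e0 => A (b :: w)[i] a.1 e0)) =
        (wf A w y) e0 • (fun a : En e0 => A b a.1 e0) +
        ∑ i : Fin w.length, (wf A (w.drop (i + 1)) y) e0 •
          (sb e0 (A b)).mulVec
            (wf (fun b => sb e0 (A b)) (w.take i)
              (fun a : En e0 => A w[i] a.1 e0)) := by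
      have h3 := Fin.sum_univ_succ (n := w.length) (fun i : Fin (w.length + 1) =>
        (wf A ((b :: w).drop (i + 1)) y) e0 •
        wf (fun b => sb e0 (A b)) ((b :: w).take i)
          (fun a : En e0 => A ((b :: w)[(i : ℕ)]'(by simpa using i.2)) a.1 e0))
      exact h3
    rw [h2]
    simp only [Matrix.mulVec_smul]
    have h4 : wf (fun b => sb e0 (A b)) (b :: w) (tl e0 y) =
      (sb e0 (A b)).mulVec (wf (fun b => sb e0 (A b)) w (tl e0 y)) := rfl
    rw [h4]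
    abel

end

section

variable {I α ρ : Type} {Q : Qv I α ρ} {ω : α → ℕ} {d : ρ → ℕ} {j : ρ}

theorem isP_append (Q : Qv I α ρ) (w1 : List α) (b : α) (w2 : List α) (i i' : I) :
    IsP Q (w1 ++ b :: w2) i i' ↔ IsP Q w2 i (Q.s b) ∧ IsP Q w1 (Q.t b) i' := by
  induction w1 generalizing i' with
  | nil => exact Iff.rfl
  | cons c w1 ih =>
    show (IsP Q (w1 ++ b :: w2) i (Q.s c) ∧ Q.t c = i') ↔
      (IsP Q w2 i (Q.s b) ∧ (IsP Q w1 (Q.t b) (Q.s c) ∧ Q.t c = i'))
    rw [ih, and_assoc]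

theorem isP_Qn (w : List α) (i i' : I) : IsP (Qn Q j) w i i' ↔ IsP Q w i i' := by
  induction w generalizing i' with
  | nil => exact Iff.rfl
  | cons c w ih => exact and_congr (ih _) Iff.rfl

/-- the embedding of the rows -/
def φ : TQ (Qn Q j) ω (dnq Q ω d j) → TQ Q ω d
  | ⟨((w, Sum.inl l), i), h⟩ => ⟨((w, l.1), i), (isP_Qn w _ _).1 h.1, h.2⟩
  | ⟨((w, Sum.inr b), i), h⟩ => ⟨((w ++ [b.1], j), i),
      (isP_append Q w b.1 [] _ _).2 ⟨b.2.symm, (isP_Qn w _ _).1 h.1⟩, by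
      have h1 : (w.map ω).sum < d j - ω b.1 := h.2
      simp only [List.map_append, List.sum_append, List.map_cons, List.map_nil, List.sum_cons,
        List.sum_nil, add_zero]
      omega⟩

theorem φ_snd (q : TQ (Qn Q j) ω (dnq Q ω d j)) : (φ q).1.2 = q.1.2 := by
  obtain ⟨⟨⟨w, l | b⟩, i⟩, h⟩ := q <;> rfl

theorem φ_inj : Function.Injective (φ : TQ (Qn Q j) ω (dnq Q ω d j) → TQ Q ω d) := by
  rintro ⟨⟨⟨w, l | b⟩, i⟩, h⟩ ⟨⟨⟨w', l' | b'⟩, i'⟩, h'⟩ e
  · have h1 := congrArg Subtype.val e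
    simp only [φ, Prod.mk.injEq] at h1
    obtain ⟨⟨h2, h3⟩, h5⟩ := h1
    subst h2
    subst h5
    have h4 : l = l' := Subtype.ext h3
    subst h4
    rfl
  · have h1 := congrArg Subtype.val e
    simp only [φ, Prod.mk.injEq] at h1
    exact absurd h1.1.2 l.2
  · have h1 := congrArg Subtype.val e
    simp only [φ, Prod.mk.injEq] at h1
    exact absurd h1.1.2.symm l'.2
  · have h1 := congrArg Subtype.val e
    simp only [φ, Prod.mk.injEq, and_true] at h1
    obtain ⟨h1, h5⟩ := h1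
    have h2 := List.append_inj' h1 rfl
    obtain ⟨h3, h4⟩ := h2
    subst h3
    subst h5
    simp only [List.cons.injEq, and_true] at h4
    have h6 : b = b' := Subtype.ext h4
    subst h6
    rfl

/-- the element `([], j)` -/
def t0 (hj : 0 < d j) : TQ Q ω d := ⟨(([], j), Q.ν j), rfl, by simpa using hj⟩

theorem φ_ne (hj : 0 < d j) (q : TQ (Qn Q j) ω (dnq Q ω d j)) : φ q ≠ t0 hj := by
  obtain ⟨⟨⟨w, l | b⟩, i⟩, h⟩ := q
  · intro e
    have h1 := congrArg Subtype.val e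
    simp only [φ, t0, Prod.mk.injEq] at h1
    exact l.2 h1.1.2
  · intro e
    have h1 := congrArg Subtype.val e
    simp [φ, t0] at h1

variable (Q ω d j) in
/-- the elements with the end vertex `i` -/
abbrev Nn (i : I) : Type := {q : TQ (Qn Q j) ω (dnq Q ω d j) // q.1.2 = i}

variable (Q j) in
/-- one point if `ν j = i`, none otherwise -/
abbrev κ (i : I) : Type := {_u : Unit // Q.ν j = i}

variable {E : Type} {vt : E → I} {e0 : E}

/-- the order of the rows -/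
def ψ (e : TQ Q ω d ≃ E) (he : ∀ τ, vt (e τ) = τ.1.2) (hj : 0 < d j) (i : I) :
    κ Q j i ⊕ Nn Q ω d j i → {y : E // vt y = i}
  | Sum.inl u => ⟨e (t0 hj), (he (t0 hj)).trans u.2⟩
  | Sum.inr q => ⟨e (φ q.1), (he _).trans ((φ_snd q.1).trans q.2)⟩

/-- the order of the columns -/
def ψ2 (h0 : vt e0 = Q.ν j) (e' : TQ (Qn Q j) ω (dnq Q ω d j) ≃ En e0)
    (he' : ∀ τ, vn vt e0 (e' τ) = τ.1.2) (i : I) :
    κ Q j i ⊕ Nn Q ω d j i → {y : E // vt y = i}
  | Sum.inl u => ⟨e0, h0.trans u.2⟩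
  | Sum.inr q => ⟨(e' q.1).1, (he' q.1).trans q.2⟩

theorem ψ2_bij (h0 : vt e0 = Q.ν j) (e' : TQ (Qn Q j) ω (dnq Q ω d j) ≃ En e0)
    (he' : ∀ τ, vn vt e0 (e' τ) = τ.1.2) (i : I) : Function.Bijective (ψ2 h0 e' he' i) := by
  constructor
  · rintro (u | q) (u' | q') h
    · exact congrArg Sum.inl (Subsingleton.elim u u')
    · have h1 : e0 = (e' q'.1).1 := Subtype.ext_iff.1 h
      exact absurd h1.symm (e' q'.1).2
    · have h1 : (e' q.1).1 = e0 := Subtype.ext_iff.1 h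
      exact absurd h1 (e' q.1).2
    · have h1 := Subtype.ext_iff.1 h
      have h2 : q.1 = q'.1 := e'.injective (Subtype.ext h1)
      have h3 : q = q' := Subtype.ext h2
      rw [h3]
  · rintro ⟨y, hy⟩
    by_cases h : y = e0
    · subst h
      exact ⟨Sum.inl ⟨(), h0.symm.trans hy⟩, rfl⟩
    · refine ⟨Sum.inr ⟨e'.symm ⟨y, h⟩, ?_⟩, ?_⟩
      · rw [← he', e'.apply_symm_apply]
        exact hy
      · apply Subtype.ext
        show (e' (e'.symm ⟨y, h⟩)).1 = y
        rw [e'.apply_symm_apply]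

theorem ψ_inj (e : TQ Q ω d ≃ E) (he : ∀ τ, vt (e τ) = τ.1.2) (hj : 0 < d j) (i : I) :
    Function.Injective (ψ e he hj i) := by
  rintro (u | q) (u' | q') h
  · exact congrArg Sum.inl (Subsingleton.elim u u')
  · have h1 : e (t0 hj) = e (φ q'.1) := congrArg Subtype.val h
    exact absurd (e.injective h1).symm (φ_ne hj _)
  · have h1 : e (φ q.1) = e (t0 hj) := congrArg Subtype.val h
    exact absurd (e.injective h1) (φ_ne hj _)
  · have h1 : e (φ q.1) = e (φ q'.1) := congrArg Subtype.val h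
    have h2 : q = q' := Subtype.ext (φ_inj (e.injective h1))
    rw [h2]

end

section

variable {I α ρ E R : Type} [DecidableEq I] [Fintype E] [DecidableEq E] [CommRing R]
  {Q : Qv I α ρ} {vt : E → I} {ω : α → ℕ} {d : ρ → ℕ} {j : ρ} {e0 : E}

theorem ext_pos (x : VQ Q vt → R) (u : U α ρ E) (h : ok Q vt u) : ext x u = x ⟨u, h⟩ := dif_pos h

theorem ext_neg (x : VQ Q vt → R) (u : U α ρ E) (h : ¬ ok Q vt u) : ext x u = 0 := dif_neg h

/-- the new data -/
def nx (h0 : vt e0 = Q.ν j) (x : VQ Q vt → R) : VQ (Qn Q j) (vn vt e0) → R :=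
  fun u => x (ioq Q vt j e0 h0 u)

theorem mA_nx (h0 : vt e0 = Q.ν j) (x : VQ Q vt → R) (b : α) :
    sb e0 (mA (ext x) b) = mA (ext (nx h0 x)) b := by
  ext a c
  show ext x (a.1, Sum.inl (b, c.1)) = ext (nx h0 x) (a, Sum.inl (b, c))
  by_cases h : ok Q vt ((a.1, Sum.inl (b, c.1)) : U α ρ E)
  · rw [ext_pos x _ h, ext_pos (nx h0 x) _ (show ok (Qn Q j) (vn vt e0) (a, Sum.inl (b, c)) from h)]
    rfl
  · rw [ext_neg x _ h,
      ext_neg (nx h0 x) _ (show ¬ ok (Qn Q j) (vn vt e0) (a, Sum.inl (b, c)) from h)]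

theorem mv_inl (h0 : vt e0 = Q.ν j) (x : VQ Q vt → R) (l : {l : ρ // l ≠ j}) :
    tl e0 (mv (ext x) l.1) = mv (ext (nx h0 x)) (Sum.inl l) := by
  ext a
  show ext x (a.1, Sum.inr l.1) = ext (nx h0 x) (a, Sum.inr (Sum.inl l))
  by_cases h : ok Q vt ((a.1, Sum.inr l.1) : U α ρ E)
  · rw [ext_pos x _ h,
      ext_pos (nx h0 x) _ (show ok (Qn Q j) (vn vt e0) (a, Sum.inr (Sum.inl l)) from h)]
    rfl
  · rw [ext_neg x _ h,
      ext_neg (nx h0 x) _ (show ¬ ok (Qn Q j) (vn vt e0) (a, Sum.inr (Sum.inl l)) from h)]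

theorem mv_inr (h0 : vt e0 = Q.ν j) (x : VQ Q vt → R) (b : {b : α // Q.s b = Q.ν j}) :
    (fun a : En e0 => mA (ext x) b.1 a.1 e0) = mv (ext (nx h0 x)) (Sum.inr b) := by
  ext a
  show ext x (a.1, Sum.inl (b.1, e0)) = ext (nx h0 x) (a, Sum.inr (Sum.inr b))
  by_cases h : vt a.1 = Q.t b.1
  · rw [ext_pos x _ (show ok Q vt (a.1, Sum.inl (b.1, e0)) from ⟨h, h0.trans b.2.symm⟩),
      ext_pos (nx h0 x) _ (show ok (Qn Q j) (vn vt e0) (a, Sum.inr (Sum.inr b)) from h)]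
    rfl
  · rw [ext_neg x _ (show ¬ ok Q vt (a.1, Sum.inl (b.1, e0)) from fun h' => h h'.1),
      ext_neg (nx h0 x) _ (show ¬ ok (Qn Q j) (vn vt e0) (a, Sum.inr (Sum.inr b)) from h)]

theorem col_zero (h0 : vt e0 = Q.ν j) (x : VQ Q vt → R) (b : α) (hb : Q.s b ≠ Q.ν j) :
    (fun a : En e0 => mA (ext x) b a.1 e0) = 0 := by
  ext a
  show ext x (a.1, Sum.inl (b, e0)) = 0
  exact ext_neg x _ fun h => hb (h.2.symm.trans h0)

/-- the vector to which the word of `q` is applied -/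
def yq (x : VQ Q vt → R) : NxQ Q j → E → R
  | Sum.inl l => mv (ext x) l.1
  | Sum.inr b => (mA (ext x) b.1).mulVec (mv (ext x) j)

theorem wv_φ (x : VQ Q vt → R) (q : TQ (Qn Q j) ω (dnq Q ω d j)) :
    wv (ext x) (φ q).1.1.1 (φ q).1.1.2 = wf (mA (ext x)) q.1.1.1 (yq x q.1.1.2) := by
  obtain ⟨⟨⟨w, l | b⟩, i⟩, h⟩ := q
  · rfl
  · simp [φ, wv, wf, yq, List.foldr_append]

theorem mv_j (h0 : vt e0 = Q.ν j) (x : VQ Q vt → R)
    (hx : ∀ (a : E) (h : vt a = Q.ν j), x ⟨(a, Sum.inr j), h⟩ = if a = e0 then 1 else 0) (a : E) :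
    mv (ext x) j a = if a = e0 then 1 else 0 := by
  show ext x (a, Sum.inr j) = _
  by_cases h : vt a = Q.ν j
  · rw [ext_pos x _ (show ok Q vt (a, Sum.inr j) from h)]
    exact hx a h
  · rw [ext_neg x _ (show ¬ ok Q vt (a, Sum.inr j) from h), if_neg]
    rintro rfl
    exact h h0

theorem tl_yq (h0 : vt e0 = Q.ν j) (x : VQ Q vt → R)
    (hx : ∀ (a : E) (h : vt a = Q.ν j), x ⟨(a, Sum.inr j), h⟩ = if a = e0 then 1 else 0)
    (t : NxQ Q j) : tl e0 (yq x t) = mv (ext (nx h0 x)) t := by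
  rcases t with l | b
  · exact mv_inl h0 x l
  · show tl e0 ((mA (ext x) b.1).mulVec (mv (ext x) j)) = _
    have h1 : tl e0 (mv (ext x) j) = 0 := by
      funext a
      show mv (ext x) j a.1 = 0
      rw [mv_j h0 x hx, if_neg a.2]
    have h2 : mv (ext x) j e0 = 1 := by rw [mv_j h0 x hx, if_pos rfl]
    rw [tl_mulVec, h1, h2, Matrix.mulVec_zero, zero_add, one_smul]
    exact mv_inr h0 x b

variable {i : I}

/-- the rows which are added to the row `q` -/
def ι (hd : ∀ l, d l ≤ d j) (q : Nn Q ω d j i)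
    (k : {k : Fin q.1.1.1.1.length // Q.s q.1.1.1.1[k] = Q.ν j}) : Nn Q ω d j i :=
  ⟨⟨((q.1.1.1.1.take k.1, Sum.inr ⟨q.1.1.1.1[k.1], k.2⟩), q.1.1.2), by
    have hw : q.1.1.1.1 = q.1.1.1.1.take k.1 ++ q.1.1.1.1[k.1] :: q.1.1.1.1.drop (k.1 + 1) := by
      have h1 : q.1.1.1.1.drop (k.1 : ℕ) = q.1.1.1.1[k.1] :: q.1.1.1.1.drop (k.1 + 1) :=
        List.drop_eq_getElem_cons k.1.2
      rw [← h1, List.take_append_drop]
    have h2 := q.1.2.1
    rw [hw] at h2
    exact ((isP_append (Qn Q j) _ _ _ _ _).1 h2).2, by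
    have h1 : (q.1.1.1.1.map ω).sum < dnq Q ω d j q.1.1.1.2 := q.1.2.2
    have h2 : dnq Q ω d j q.1.1.1.2 ≤ d j := by
      rcases q.1.1.1.2 with l | b
      · exact hd l.1
      · exact Nat.sub_le _ _
    have h3 : ((q.1.1.1.1.take (k.1 + 1)).map ω).sum ≤ (q.1.1.1.1.map ω).sum := by
      conv_rhs => rw [← List.take_append_drop (k.1 + 1) q.1.1.1.1]
      rw [List.map_append, List.sum_append]
      exact Nat.le_add_right _ _
    have h4 : ((q.1.1.1.1.take (k.1 + 1)).map ω).sum =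
        ((q.1.1.1.1.take k.1).map ω).sum + ω q.1.1.1.1[k.1] := by
      rw [List.take_add_one]
      have : q.1.1.1.1[((k.1 : Fin _) : ℕ)]? = some q.1.1.1.1[k.1] :=
        List.getElem?_eq_getElem k.1.2
      rw [this]
      simp
    show ((q.1.1.1.1.take k.1).map ω).sum < d j - ω q.1.1.1.1[k.1]
    omega⟩, q.2⟩

theorem len_ι (hd : ∀ l, d l ≤ d j) (q : Nn Q ω d j i)
    (k : {k : Fin q.1.1.1.1.length // Q.s q.1.1.1.1[k] = Q.ν j}) :
    (ι hd q k).1.1.1.1.length = k.1 := by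
  simp only [ι, List.length_take]
  have := k.1.2
  omega

theorem ι_inj (hd : ∀ l, d l ≤ d j) (q : Nn Q ω d j i) : Function.Injective (ι hd q) := by
  intro k k' h
  apply Subtype.ext
  apply Fin.ext
  rw [← len_ι hd q k, ← len_ι hd q k', h]

open Classical in
/-- the matrix of the combinations -/
noncomputable def N (hd : ∀ l, d l ≤ d j) (e0 : E) (x : VQ Q vt → R) :
    Matrix (Nn Q ω d j i) (Nn Q ω d j i) R :=
  Matrix.of fun q q' => if ∃ k, ι hd q k = q' then
    (wf (mA (ext x)) (q.1.1.1.1.drop (q'.1.1.1.1.length + 1)) (yq x q.1.1.1.2)) e0 else 0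

/-- the new rows -/
def K' (h0 : vt e0 = Q.ν j) (x : VQ Q vt → R) : Matrix (Nn Q ω d j i) (En e0) R :=
  Matrix.of fun q a => wv (ext (nx h0 x)) q.1.1.1.1 q.1.1.1.2 a

theorem row [Fintype (Nn Q ω d j i)] (hd : ∀ l, d l ≤ d j) (h0 : vt e0 = Q.ν j)
    (x : VQ Q vt → R)
    (hx : ∀ (a : E) (h : vt a = Q.ν j), x ⟨(a, Sum.inr j), h⟩ = if a = e0 then 1 else 0)
    (q : Nn Q ω d j i) (c : En e0) :
    wv (ext x) (φ q.1).1.1.1 (φ q.1).1.1.2 c.1 =
      K' h0 x q c + ∑ q' : Nn Q ω d j i, N hd e0 x q q' * K' h0 x q' c := by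
  have h1 : wv (ext x) (φ q.1).1.1.1 (φ q.1).1.1.2 c.1 =
      tl e0 (wf (mA (ext x)) q.1.1.1.1 (yq x q.1.1.1.2)) c := by
    rw [wv_φ]; rfl
  rw [h1, tl_wf, tl_yq h0 x hx]
  simp only [mA_nx h0, Pi.add_apply, Finset.sum_apply, Pi.smul_apply, smul_eq_mul]
  congr 1
  have h2 := Fintype.sum_of_injective
    (Subtype.val : {k : Fin q.1.1.1.1.length // Q.s q.1.1.1.1[k] = Q.ν j} → _)
    Subtype.val_injective
    (fun k => (wf (mA (ext x)) (q.1.1.1.1.drop (k.1 + 1)) (yq x q.1.1.1.2)) e0 *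
      wf (mA (ext (nx h0 x))) (q.1.1.1.1.take k.1)
        (fun a : En e0 => mA (ext x) q.1.1.1.1[k.1] a.1 e0) c)
    (fun k => (wf (mA (ext x)) (q.1.1.1.1.drop (k + 1)) (yq x q.1.1.1.2)) e0 *
      wf (mA (ext (nx h0 x))) (q.1.1.1.1.take k)
        (fun a : En e0 => mA (ext x) q.1.1.1.1[k] a.1 e0) c) ?_ (fun k => rfl)
  · rw [← h2]
    refine Fintype.sum_of_injective (ι hd q) (ι_inj hd q) _ _ ?_ ?_
    · intro q' hq'
      have : ¬ ∃ k, ι hd q k = q' := fun ⟨k, hk⟩ => hq' ⟨k, hk⟩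
      simp only [N, Matrix.of_apply, if_neg this, zero_mul]
    · intro k
      have h3 : ∃ k', ι hd q k' = ι hd q k := ⟨k, rfl⟩
      simp only [N, Matrix.of_apply, if_pos h3, len_ι]
      rw [mv_inr h0 x ⟨q.1.1.1.1[k.1], k.2⟩]
      rfl
  · intro k hk
    have h3 : Q.s q.1.1.1.1[k] ≠ Q.ν j := fun h => hk ⟨⟨k, h⟩, rfl⟩
    rw [col_zero h0 x _ h3]
    have h4 : ∀ w : List α, wf (mA (ext (nx h0 x))) w (0 : En e0 → R) = 0 := by
      intro w
      induction w with
      | nil => rfl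
      | cons b w ih =>
        show (mA (ext (nx h0 x)) b).mulVec (wf (mA (ext (nx h0 x))) w 0) = 0
        rw [ih, Matrix.mulVec_zero]
    rw [h4, Pi.zero_apply, mul_zero]

theorem det_one_add_N [Fintype (Nn Q ω d j i)] [DecidableEq (Nn Q ω d j i)]
    (hd : ∀ l, d l ≤ d j) (e0 : E) (x : VQ Q vt → R) :
    (1 + (N hd e0 x : Matrix (Nn Q ω d j i) (Nn Q ω d j i) R)).det = 1 := by
  have hN0 : ∀ q q' : Nn Q ω d j i, q.1.1.1.1.length ≤ q'.1.1.1.1.length →
      N hd e0 x q q' = 0 := by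
    intro q q' h
    have : ¬ ∃ k, ι hd q k = q' := by
      rintro ⟨k, rfl⟩
      rw [len_ι] at h
      have := k.1.2
      omega
    simp only [N, Matrix.of_apply, if_neg this]
  have hb : (1 + (N hd e0 x : Matrix (Nn Q ω d j i) (Nn Q ω d j i) R)).BlockTriangular
      (fun q => OrderDual.toDual (q.1.1.1.1.length : ℕ)) := by
    intro q q' h
    have h1 : q.1.1.1.1.length < q'.1.1.1.1.length := h
    have h2 : q ≠ q' := by
      rintro rfl
      exact lt_irrefl _ h1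
    rw [Matrix.add_apply, Matrix.one_apply_ne h2, zero_add]
    exact hN0 q q' h1.le
  rw [hb.det]
  apply Finset.prod_eq_one
  intro a _
  have : (1 + (N hd e0 x : Matrix (Nn Q ω d j i) (Nn Q ω d j i) R)).toSquareBlock
      (fun q => OrderDual.toDual (q.1.1.1.1.length : ℕ)) a = 1 := by
    ext q q'
    have h1 : (q : Nn Q ω d j i).1.1.1.1.length = (q' : Nn Q ω d j i).1.1.1.1.length := by
      have h2 := q.2
      have h3 := q'.2
      have h4 : OrderDual.toDual ((q : Nn Q ω d j i).1.1.1.1.length : ℕ) =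
        OrderDual.toDual ((q' : Nn Q ω d j i).1.1.1.1.length : ℕ) := h2.trans h3.symm
      exact OrderDual.toDual.injective h4
    rw [Matrix.toSquareBlock_def, Matrix.of_apply, Matrix.add_apply, hN0 _ _ h1.le, add_zero,
      Matrix.one_apply, Matrix.one_apply]
    by_cases h : q = q'
    · rw [if_pos h, if_pos (congrArg Subtype.val h)]
    · rw [if_neg h, if_neg (fun h' => h (Subtype.ext h'))]
  rw [this, Matrix.det_one]

/-- rows and columns in different orders -/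
theorem det_two {F n κ' : Type} [Fintype F] [DecidableEq F] [Fintype n] [DecidableEq n]
    [Fintype κ'] [DecidableEq κ'] (M : Matrix F F R) (f g : κ' ⊕ n ≃ F)
    (C : Matrix n κ' R) (D : Matrix n n R) (h : M.submatrix f g = Matrix.fromBlocks 1 0 C D) :
    M.det = ((Equiv.Perm.sign (f.trans g.symm) : ℤˣ) : ℤ) * D.det := by
  have h1 : (M.submatrix f g).det = D.det := by
    rw [h, Matrix.det_fromBlocks_zero₁₂, Matrix.det_one, one_mul]
  have h2 : M.submatrix f g = (M.submatrix g g).submatrix (f.trans g.symm) id := by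
    ext a b
    simp
  rw [h2, Matrix.det_permute, Matrix.det_submatrix_equiv_self] at h1
  rw [← h1, ← mul_assoc]
  have h3 : (((Equiv.Perm.sign (f.trans g.symm) : ℤˣ) : ℤ) : R) *
      (((Equiv.Perm.sign (f.trans g.symm) : ℤˣ) : ℤ) : R) = 1 := by
    rw [← Int.cast_mul, ← Units.val_mul, Int.units_mul_self]
    simp
  rw [h3, one_mul]

end

end Pool.Agent.K1H24.KQ.Det

namespace Pool.Agent.K1H24.KQ

open Finset Pool.Agent.K1H70.KQ

theorem t_DETq : S_DETq := by
  classical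
  intro I α ρ E _ _ _ Q vt ω d e he j e0 h0 hj hd e' he' i
  let ei : Det.Nn Q ω d j i ≃ {y : En e0 // vn vt e0 y = i} :=
    e'.subtypeEquiv fun q => by rw [he' q]
  haveI : Fintype (Det.Nn Q ω d j i) := Fintype.ofEquiv _ ei.symm
  let g : Det.κ Q j i ⊕ Det.Nn Q ω d j i ≃ {y : E // vt y = i} :=
    Equiv.ofBijective _ (Det.ψ2_bij h0 e' he' i)
  let f : Det.κ Q j i ⊕ Det.Nn Q ω d j i ≃ {y : E // vt y = i} :=
    Equiv.ofBijective (Det.ψ e he hj i) ((Fintype.bijective_iff_injective_and_card _).2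
      ⟨Det.ψ_inj e he hj i, Fintype.card_congr g⟩)
  refine ⟨((Equiv.Perm.sign (f.trans g.symm) : ℤˣ) : ℤ), ?_, ?_⟩
  · rcases Int.units_eq_one_or (Equiv.Perm.sign (f.trans g.symm)) with h' | h' <;> simp [h']
  · intro R _ x hx
    have hK : dq (Qn Q j) (vn vt e0) ω (dnq Q ω d j) e' i (fun u => x (ioq Q vt j e0 h0 u)) =
        ((1 + (Det.N hd e0 x : Matrix (Det.Nn Q ω d j i) (Det.Nn Q ω d j i) R)) *
          ((Det.K' h0 x : Matrix (Det.Nn Q ω d j i) (En e0) R).submatrix id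
            fun q => (ei q).1)).det := by
      rw [Matrix.det_mul, Det.det_one_add_N, one_mul, dq, ← Matrix.det_submatrix_equiv_self ei]
      congr 1
      ext a b
      show wv _ (e'.symm (ei a).1).1.1.1 (e'.symm (ei a).1).1.1.2 (ei b).1 = _
      have h1 : e'.symm (ei a).1 = a.1 := e'.symm_apply_apply a.1
      rw [h1]
      rfl
    rw [hK, dq]
    refine Det.det_two _ f g (Matrix.of fun q u =>
      wv (ext x) (Det.φ q.1).1.1.1 (Det.φ q.1).1.1.2 e0) _ ?_
    ext (u | q) (u' | q')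
    · show wv (ext x) (e.symm (e (Det.t0 hj))).1.1.1 (e.symm (e (Det.t0 hj))).1.1.2 e0 = _
      rw [e.symm_apply_apply, Matrix.fromBlocks_apply₁₁, Subsingleton.elim u u',
        Matrix.one_apply_eq]
      show mv (ext x) j e0 = 1
      rw [Det.mv_j h0 x hx, if_pos rfl]
    · show wv (ext x) (e.symm (e (Det.t0 hj))).1.1.1 (e.symm (e (Det.t0 hj))).1.1.2 (e' q'.1).1 = _
      rw [e.symm_apply_apply, Matrix.fromBlocks_apply₁₂]
      show mv (ext x) j (e' q'.1).1 = 0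
      rw [Det.mv_j h0 x hx, if_neg (e' q'.1).2]
    · show wv (ext x) (e.symm (e (Det.φ q.1))).1.1.1 (e.symm (e (Det.φ q.1))).1.1.2 e0 = _
      rw [e.symm_apply_apply, Matrix.fromBlocks_apply₂₁]
      rfl
    · show wv (ext x) (e.symm (e (Det.φ q.1))).1.1.1 (e.symm (e (Det.φ q.1))).1.1.2 (e' q'.1).1 = _
      rw [e.symm_apply_apply, Matrix.fromBlocks_apply₂₂, Det.row hd h0 x hx, Matrix.add_mul,
        Matrix.one_mul, Matrix.add_apply, Matrix.mul_apply]
      rfl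

end Pool.Agent.K1H24.KQ
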